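import Mathlib

set_option autoImplicit false

namespace Pool.Agent.Lib.MP7df21e

open Filter

/-- The fixed nonprincipal ultrafilter on the natural numbers, as a filter. -/
noncomputable def U : Ultrafilter ℕ := hyperfilter ℕ

lemma U_cofinite (s : Set ℕ) (hs : sᶜ.Finite) : s ∈ (U : Filter ℕ) := by
  have : (U : Filter ℕ) ≤ cofinite := hyperfilter_le_cofinite
  exact this hs

/-- first `n` values -/
def pre (c : ℕ → ℕ) (n : ℕ) : List ℕ := (List.range n).map c

/-- put a value in front -/
def cons (v : ℕ) (c : ℕ → ℕ) : ℕ → ℕ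
  | 0 => v
  | (n+1) => c n

/-- concatenation -/
def cat : List ℕ → (ℕ → ℕ) → (ℕ → ℕ)
  | [], c => c
  | (v :: s), c => cons v (cat s c)

@[simp] lemma cons_zero (v : ℕ) (c : ℕ → ℕ) : cons v c 0 = v := rfl
@[simp] lemma cons_succ (v : ℕ) (c : ℕ → ℕ) (n : ℕ) : cons v c (n+1) = c n := rfl
@[simp] lemma cat_nil (c : ℕ → ℕ) : cat [] c = c := rfl
@[simp] lemma cat_cons (v : ℕ) (s : List ℕ) (c : ℕ → ℕ) : cat (v :: s) c = cons v (cat s c) := rfl

lemma cat_append (s t : List ℕ) (c : ℕ → ℕ) : cat (s ++ t) c = cat s (cat t c) := by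
  induction s with
  | nil => rfl
  | cons v s ih => simp [ih]

lemma cat_apply (s : List ℕ) (c : ℕ → ℕ) (n : ℕ) :
    cat s c n = if n < s.length then s.getD n 0 else c (n - s.length) := by
  induction s generalizing n with
  | nil => simp
  | cons v s ih =>
    cases n with
    | zero => simp
    | succ n =>
      simp only [cat_cons, cons_succ, ih, List.length_cons, Nat.succ_lt_succ_iff,
        List.getD_cons_succ, Nat.succ_sub_succ_eq_sub]

lemma pre_zero (c : ℕ → ℕ) : pre c 0 = [] := rfl

lemma pre_succ (c : ℕ → ℕ) (n : ℕ) : pre c (n+1) = pre c n ++ [c n] := by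
  simp [pre, List.range_succ]

lemma pre_cons (v : ℕ) (c : ℕ → ℕ) (n : ℕ) : pre (cons v c) (n+1) = v :: pre c n := by
  simp [pre, List.range_succ_eq_map, Function.comp_def]

@[simp] lemma pre_length (c : ℕ → ℕ) (n : ℕ) : (pre c n).length = n := by simp [pre]

lemma pre_getD (c : ℕ → ℕ) (n i : ℕ) (h : i < n) : (pre c n).getD i 0 = c i := by
  simp [pre, List.getD_eq_getElem?_getD, h]

lemma cat_pre (c : ℕ → ℕ) (n : ℕ) : cat (pre c n) (fun i => c (n + i)) = c := by
  funext m
  rw [cat_apply]
  simp only [pre_length]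
  split_ifs with h
  · exact pre_getD c n m h
  · congr 1; omega

lemma pre_add_take (c : ℕ → ℕ) (n m : ℕ) : (pre c (n+m)).take n = pre c n := by
  simp only [pre, ← List.map_take]
  congr 1
  rw [List.take_range]
  congr 1
  omega

lemma pre_add_drop (c : ℕ → ℕ) (n m : ℕ) :
    (pre c (n+m)).drop n = pre (fun i => c (n+i)) m := by
  simp only [pre, List.range_add, List.map_append, List.map_map]
  rw [List.drop_append]
  simp [Function.comp_def]

/-- Full sets. -/
def Full (B : Set (ℕ → ℕ)) : Prop :=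
  ∃ F : List ℕ → Set ℕ, (∀ s, F s ∈ (U : Filter ℕ)) ∧
    ∀ c : ℕ → ℕ, (∀ n, c n ∈ F (pre c n)) → c ∈ B

lemma full_univ : Full Set.univ := ⟨fun _ => Set.univ, fun _ => Filter.univ_mem, fun _ _ => trivial⟩

lemma Full.mono {B B' : Set (ℕ → ℕ)} (h : Full B) (hB : B ⊆ B') : Full B' := by
  obtain ⟨F, h1, h2⟩ := h
  exact ⟨F, h1, fun c hc => hB (h2 c hc)⟩

lemma Full.inter {B B' : Set (ℕ → ℕ)} (h : Full B) (h' : Full B') : Full (B ∩ B') := by
  obtain ⟨F, h1, h2⟩ := h
  obtain ⟨F', h1', h2'⟩ := h'
  exact ⟨fun s => F s ∩ F' s, fun s => Filter.inter_mem (h1 s) (h1' s),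
    fun c hc => ⟨h2 c fun n => (hc n).1, h2' c fun n => (hc n).2⟩⟩

lemma full_nonempty {B : Set (ℕ → ℕ)} (h : Full B) : B.Nonempty := by
  obtain ⟨F, h1, h2⟩ := h
  have h3 : ∀ s, ∃ v, v ∈ F s := fun s => Filter.nonempty_of_mem (h1 s)
  choose nx hnx using h3
  let L : ℕ → List ℕ := fun n => Nat.rec [] (fun _ l => l ++ [nx l]) n
  have hL : ∀ n, L (n+1) = L n ++ [nx (L n)] := fun n => rfl
  let c : ℕ → ℕ := fun n => nx (L n)
  have hpre : ∀ n, pre c n = L n := by
    intro n
    induction n with
    | zero => rfl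
    | succ n ih => rw [pre_succ, ih, hL]
  refine ⟨c, h2 c fun n => ?_⟩
  rw [hpre]
  exact hnx (L n)

lemma full_iff_step (B : Set (ℕ → ℕ)) :
    Full B ↔ ∀ᶠ v in (U : Filter ℕ), Full {c | cons v c ∈ B} := by
  constructor
  · rintro ⟨F, h1, h2⟩
    filter_upwards [h1 []] with v hv
    refine ⟨fun s => F (v :: s), fun s => h1 _, fun c hc => ?_⟩
    refine h2 _ fun n => ?_
    cases n with
    | zero => simpa [pre_zero] using hv
    | succ n => rw [pre_cons]; exact hc n
  · intro h
    have hall : ∀ v, ∃ F : List ℕ → Set ℕ, (∀ s, F s ∈ (U : Filter ℕ)) ∧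
        (Full {c | cons v c ∈ B} → ∀ c : ℕ → ℕ, (∀ n, c n ∈ F (pre c n)) → cons v c ∈ B) := by
      intro v
      by_cases hv : Full {c | cons v c ∈ B}
      · obtain ⟨F, h1, h2⟩ := hv
        exact ⟨F, h1, fun _ => h2⟩
      · exact ⟨fun _ => Set.univ, fun _ => Filter.univ_mem, fun h => absurd h hv⟩
    choose F h1 h2 using hall
    refine ⟨fun s => match s with
      | [] => {v | Full {c | cons v c ∈ B}}
      | (v :: s) => F v s, ?_, ?_⟩
    · intro s
      cases s with
      | nil => exact h
      | cons v s => exact h1 v s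
    · intro c hc
      have hc0 : c = cons (c 0) (fun n => c (n+1)) := by
        funext n; cases n <;> rfl
      have h0 := hc 0
      rw [pre_zero] at h0
      rw [hc0]
      refine h2 (c 0) h0 _ fun n => ?_
      have h3 := hc (n+1)
      rw [hc0, pre_cons] at h3
      exact h3

lemma full_congr {B B' : Set (ℕ → ℕ)} (h : B = B') : Full B ↔ Full B' := by rw [h]

/-- Fusion. -/
lemma fusion (G : List ℕ → Prop) (B : ℕ → Set (ℕ → ℕ)) (h0 : G [])
    (h1 : ∀ s, G s → ∀ᶠ v in (U : Filter ℕ), G (s ++ [v]))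
    (h2 : ∀ s, G s → ∀ n, Full {c | cat s c ∉ B n}) :
    Full {c | ∀ n, c ∉ B n} := by
  have hall : ∀ (s : List ℕ) (n : ℕ), ∃ F : List ℕ → Set ℕ, (∀ s, F s ∈ (U : Filter ℕ)) ∧
      (G s → ∀ c : ℕ → ℕ, (∀ n, c n ∈ F (pre c n)) → cat s c ∉ B n) := by
    intro s n
    by_cases hv : G s
    · obtain ⟨F, h1, h2⟩ := h2 s hv n
      exact ⟨F, h1, fun _ => h2⟩
    · exact ⟨fun _ => Set.univ, fun _ => Filter.univ_mem, fun h => absurd h hv⟩
  choose F hF1 hF2 using hall
  refine ⟨fun t => {v | G t → G (t ++ [v])} ∩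
    ⋂ k ∈ Finset.range (t.length + 1), F (t.take k) k (t.drop k), ?_, ?_⟩
  · intro t
    refine Filter.inter_mem ?_ ?_
    · by_cases hG : G t
      · filter_upwards [h1 t hG] with v hv _
        exact hv
      · exact Filter.univ_mem' fun v h => absurd h hG
    · rw [Filter.biInter_finset_mem]
      intro k _
      exact hF1 _ _ _
  · intro c hc
    have hG : ∀ n, G (pre c n) := by
      intro n
      induction n with
      | zero => exact h0
      | succ n ih =>
        rw [pre_succ]
        exact (hc n).1 ih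
    intro n
    rw [← cat_pre c n]
    refine hF2 (pre c n) n (hG n) _ fun m => ?_
    have h3 := (hc (n+m)).2
    simp only [Set.mem_iInter] at h3
    have h4 := h3 n (by simp)
    rw [pre_add_take, pre_add_drop] at h4
    exact h4

lemma full_coord (n : ℕ) (A : Set ℕ) : Full {c | c n ∈ A} ∨ Full {c | c n ∉ A} := by
  induction n with
  | zero =>
    rw [full_iff_step, full_iff_step {c | c 0 ∉ A}]
    rcases U.mem_or_compl_mem A with h | h
    · left
      filter_upwards [h] with v hv
      exact full_univ.mono fun c _ => hv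
    · right
      filter_upwards [h] with v hv
      exact full_univ.mono fun c _ => hv
  | succ n ih =>
    rw [full_iff_step, full_iff_step {c | c (n+1) ∉ A}]
    rcases ih with h | h
    · left; exact Filter.Eventually.of_forall fun v => h
    · right; exact Filter.Eventually.of_forall fun v => h

lemma not_full_step {B : Set (ℕ → ℕ)} (h : ¬ Full B) :
    ∀ᶠ v in (U : Filter ℕ), ¬ Full {c | cons v c ∈ B} := by
  rw [full_iff_step] at h
  exact Ultrafilter.eventually_not.mpr h

/-- decision sigma algebra -/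
@[reducible] def decAlg : MeasurableSpace (ℕ → ℕ) where
  MeasurableSet' B := ∀ s : List ℕ, Full {c | cat s c ∈ B} ∨ Full {c | cat s c ∉ B}
  measurableSet_empty := by
    intro s
    right
    exact full_univ.mono fun c _ h => h
  measurableSet_compl := by
    intro B hB s
    rcases hB s with h | h
    · right; exact h.mono fun c hc h' => h' hc
    · left; exact h
  measurableSet_iUnion := by
    intro B hB s
    by_cases h : Full {c | cat s c ∈ ⋃ i, B i}
    · left; exact h
    · right
      have := fusion (fun t => ¬ Full {c | cat (s ++ t) c ∈ ⋃ i, B i})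
        (fun n => {c | cat s c ∈ B n}) (by simpa using h) ?_ ?_
      · refine this.mono fun c hc => ?_
        intro h'
        obtain ⟨i, hi⟩ := Set.mem_iUnion.mp h'
        exact hc i hi
      · intro t ht
        filter_upwards [not_full_step ht] with v hv h'
        apply hv
        refine h'.mono fun c hc => ?_
        have : cat (s ++ (t ++ [v])) c = cat (s ++ t) (cons v c) := by
          rw [← List.append_assoc, cat_append (s ++ t)]; rfl
        change cat (s ++ (t ++ [v])) c ∈ ⋃ i, B i at hc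
        rw [this] at hc
        exact hc
      · intro t ht n
        rcases hB n (s ++ t) with h1 | h1
        · exfalso
          apply ht
          exact h1.mono fun c hc => Set.mem_iUnion.mpr ⟨n, hc⟩
        · refine h1.mono fun c hc h' => hc ?_
          rw [cat_append]
          exact h'

lemma decision_aux : (MeasurableSpace.pi : MeasurableSpace (ℕ → ℕ)) ≤ decAlg := by
  unfold MeasurableSpace.pi
  refine iSup_le fun n => ?_
  rintro _ ⟨A, -, rfl⟩ s
  change Full {c | cat s c ∈ (fun b : ℕ → ℕ => b n) ⁻¹' A} ∨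
    Full {c | cat s c ∉ (fun b : ℕ → ℕ => b n) ⁻¹' A}
  simp only [Set.mem_preimage, cat_apply]
  by_cases h : n < s.length
  · simp only [h, if_true]
    by_cases h' : s.getD n 0 ∈ A
    · left; exact full_univ.mono fun c _ => h'
    · right; exact full_univ.mono fun c _ => h'
  · simp only [h, if_false]
    exact full_coord _ _

lemma decision {B : Set (ℕ → ℕ)} (hB : MeasurableSet B) : Full B ∨ Full Bᶜ :=
  decision_aux B hB []

/-- subsequence of a list along ρ -/
def sub (ρ : ℕ → ℕ) (k : ℕ) (v : List ℕ) : List ℕ := (List.range k).map (fun m => v.getD (ρ m) 0)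

lemma full_comp {ρ : ℕ → ℕ} (hρ : StrictMono ρ) {B : Set (ℕ → ℕ)} (hB : Full B) :
    Full {c | c ∘ ρ ∈ B} := by
  obtain ⟨F, h1, h2⟩ := hB
  refine ⟨fun t => {v | ∀ m, ρ m = t.length → v ∈ F (sub ρ m t)}, ?_, ?_⟩
  · intro t
    by_cases h : ∃ m, ρ m = t.length
    · obtain ⟨m, hm⟩ := h
      filter_upwards [h1 (sub ρ m t)] with v hv m' hm'
      have : m' = m := hρ.injective (hm'.trans hm.symm)
      rw [this]; exact hv
    · exact Filter.univ_mem' fun v m hm => absurd ⟨m, hm⟩ h
  · intro c hc
    refine h2 _ fun m => ?_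
    have h3 := hc (ρ m) m (by simp)
    have h4 : sub ρ m (pre c (ρ m)) = pre (c ∘ ρ) m := by
      unfold sub
      conv_rhs => unfold pre
      apply List.map_congr_left
      intro i hi
      rw [List.mem_range] at hi
      rw [pre_getD _ _ _ (hρ hi)]
      rfl
    rw [h4] at h3
    exact h3

lemma full_strictMono : Full {c : ℕ → ℕ | StrictMono c} := by
  refine ⟨fun t => {v | ∀ x ∈ t, x < v}, ?_, ?_⟩
  · intro t
    apply U_cofinite
    refine (Set.finite_Iic (t.sum)).subset fun v hv => ?_
    simp only [Set.mem_compl_iff, Set.mem_ofPred_eq, not_forall, not_lt] at hv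
    obtain ⟨x, hx, hv⟩ := hv
    exact hv.trans (List.single_le_sum (by simp) x hx)
  · intro c hc
    refine strictMono_nat_of_lt_succ fun n => ?_
    refine hc (n+1) (c n) ?_
    rw [pre_succ]
    simp

end Pool.Agent.Lib.MP7df21e
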