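import Mathlib
import Pool.Agent.Lib.MP_7df21e_lc.Full

set_option autoImplicit false

namespace Pool.Agent.Lib.MP7df21e

open Filter

/-- iterated ultrafilter quantifier over lists of length `k` -/
def Al : ℕ → (List ℕ → Prop) → Prop
  | 0, P => P []
  | (k+1), P => ∀ᶠ v in (U : Filter ℕ), Al k (fun s => P (v :: s))

lemma Al_zero (P : List ℕ → Prop) : Al 0 P ↔ P [] := Iff.rfl

lemma Al_succ (k : ℕ) (P : List ℕ → Prop) :
    Al (k+1) P ↔ ∀ᶠ v in (U : Filter ℕ), Al k (fun s => P (v :: s)) := Iff.rfl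

lemma Al_mono {k : ℕ} {P Q : List ℕ → Prop} (h : ∀ s, s.length = k → P s → Q s) :
    Al k P → Al k Q := by
  induction k generalizing P Q with
  | zero => exact h [] rfl
  | succ k ih =>
    intro hP
    rw [Al_succ] at hP ⊢
    filter_upwards [hP] with v hv
    exact ih (fun s hs => h (v :: s) (by simp [hs])) hv

lemma Al_of_forall {k : ℕ} {P : List ℕ → Prop} (h : ∀ s, s.length = k → P s) : Al k P := by
  induction k generalizing P with
  | zero => exact h [] rfl
  | succ k ih =>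
    rw [Al_succ]
    exact Filter.Eventually.of_forall fun v => ih fun s hs => h (v :: s) (by simp [hs])

lemma Al_and {k : ℕ} {P Q : List ℕ → Prop} (hP : Al k P) (hQ : Al k Q) :
    Al k (fun s => P s ∧ Q s) := by
  induction k generalizing P Q with
  | zero => exact ⟨hP, hQ⟩
  | succ k ih =>
    rw [Al_succ] at *
    filter_upwards [hP, hQ] with v hv hv'
    exact ih hv hv'

lemma Al_exists {k : ℕ} {P : List ℕ → Prop} (hP : Al k P) : ∃ s, s.length = k ∧ P s := by
  induction k generalizing P with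
  | zero => exact ⟨[], rfl, hP⟩
  | succ k ih =>
    rw [Al_succ] at hP
    obtain ⟨v, hv⟩ := hP.exists
    obtain ⟨s, hs, hs'⟩ := ih hv
    exact ⟨v :: s, by simp [hs], hs'⟩

lemma Al_not {k : ℕ} {P : List ℕ → Prop} (hP : ¬ Al k P) : Al k (fun s => ¬ P s) := by
  induction k generalizing P with
  | zero => exact hP
  | succ k ih =>
    rw [Al_succ] at hP ⊢
    have := Ultrafilter.eventually_not.mpr hP
    filter_upwards [this] with v hv
    exact ih hv

lemma Al_add {k l : ℕ} {P : List ℕ → Prop} :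
    Al (k+l) P ↔ Al k (fun s => Al l (fun t => P (s ++ t))) := by
  induction k generalizing P with
  | zero => rw [Nat.zero_add]; rfl
  | succ k ih =>
    rw [Nat.succ_add_eq_add_succ, Nat.add_succ, Al_succ, Al_succ]
    simp only [ih]
    rfl

lemma full_iff_Al (k : ℕ) (B : Set (ℕ → ℕ)) : Full B ↔ Al k (fun s => Full {c | cat s c ∈ B}) := by
  induction k generalizing B with
  | zero => rfl
  | succ k ih =>
    rw [full_iff_step, Al_succ]
    exact Filter.eventually_congr (Filter.Eventually.of_forall fun v => ih _)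

lemma measurable_cons (v : ℕ) : Measurable (cons v) := by
  rw [measurable_pi_iff]
  intro n
  cases n with
  | zero => exact measurable_const
  | succ n => exact measurable_pi_apply n

lemma measurable_cat (s : List ℕ) : Measurable (cat s) := by
  induction s with
  | nil => exact measurable_id
  | cons v s ih => exact (measurable_cons v).comp ih

lemma measurable_compr (ρ : ℕ → ℕ) : Measurable (fun c : ℕ → ℕ => c ∘ ρ) := by
  rw [measurable_pi_iff]
  intro n
  exact measurable_pi_apply (ρ n)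

/-- constant on a full set -/
def Cst (q : (ℕ → ℕ) → ℕ) : Prop := ∃ N, Full {c | q c = N}

lemma Cst.Al {q : (ℕ → ℕ) → ℕ} (h : Cst q) (k : ℕ) : Al k (fun s => Cst (fun c => q (cat s c))) := by
  obtain ⟨N, hN⟩ := h
  rw [full_iff_Al k] at hN
  exact Al_mono (fun s _ h => ⟨N, h⟩) hN

/-- rank at most `α` -/
def Le (α : Ordinal.{0}) (q : (ℕ → ℕ) → ℕ) : Prop :=
  Cst q ∨ ∃ k, Al k (fun s => ∃ β, ∃ _ : β < α, Le β (fun c => q (cat s c)))
termination_by α

/-- rank less than `α` -/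
def Lt (α : Ordinal.{0}) (q : (ℕ → ℕ) → ℕ) : Prop := ∃ β, β < α ∧ Le β q

lemma le_iff (α : Ordinal.{0}) (q : (ℕ → ℕ) → ℕ) :
    Le α q ↔ Cst q ∨ ∃ k, Al k (fun s => Lt α (fun c => q (cat s c))) := by
  rw [Le]
  simp only [exists_prop, Lt]

lemma Le_mono {α α' : Ordinal.{0}} (h : α ≤ α') {q : (ℕ → ℕ) → ℕ} (hq : Le α q) : Le α' q := by
  rw [le_iff] at *
  rcases hq with hq | ⟨k, hk⟩
  · exact Or.inl hq
  · refine Or.inr ⟨k, Al_mono (fun s _ hs => ?_) hk⟩
    obtain ⟨β, hβ, h1⟩ := hs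
    exact ⟨β, hβ.trans_le h, h1⟩

lemma Lt_mono {α α' : Ordinal.{0}} (h : α ≤ α') {q : (ℕ → ℕ) → ℕ} (hq : Lt α q) : Lt α' q := by
  obtain ⟨β, hβ, h1⟩ := hq
  exact ⟨β, hβ.trans_le h, h1⟩

lemma Lt.Le {α : Ordinal.{0}} {q : (ℕ → ℕ) → ℕ} (hq : Lt α q) : Le α q := by
  obtain ⟨β, hβ, h1⟩ := hq
  exact Le_mono hβ.le h1

lemma Cst.Le {q : (ℕ → ℕ) → ℕ} (h : Cst q) (α : Ordinal.{0}) : Le α q := by
  rw [le_iff]; exact Or.inl h

lemma Le_step1 {α : Ordinal.{0}} {q : (ℕ → ℕ) → ℕ} (hq : Le α q) :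
    ∀ᶠ v in (U : Filter ℕ), Le α (fun c => q (cons v c)) := by
  induction α using WellFoundedLT.induction generalizing q with
  | ind α ih =>
    rw [le_iff] at hq
    rcases hq with hq | ⟨k, hk⟩
    · have h1 := hq.Al 1
      rw [Al_succ] at h1
      filter_upwards [h1] with v hv
      exact Cst.Le hv α
    · cases k with
      | zero =>
        obtain ⟨β, hβ, h1⟩ := hk
        filter_upwards [ih β hβ h1] with v hv
        exact Le_mono hβ.le hv
      | succ k =>
        rw [Al_succ] at hk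
        filter_upwards [hk] with v hv
        rw [le_iff]
        exact Or.inr ⟨k, hv⟩

lemma Le_step {α : Ordinal.{0}} (m : ℕ) {q : (ℕ → ℕ) → ℕ} (hq : Le α q) :
    Al m (fun s => Le α (fun c => q (cat s c))) := by
  induction m generalizing q with
  | zero => exact hq
  | succ m ih =>
    rw [Al_succ]
    filter_upwards [Le_step1 hq] with v hv
    exact ih hv

lemma Lt_step {α : Ordinal.{0}} (m : ℕ) {q : (ℕ → ℕ) → ℕ} (hq : Lt α q) :
    Al m (fun s => Lt α (fun c => q (cat s c))) := by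
  obtain ⟨β, hβ, h1⟩ := hq
  exact Al_mono (fun s _ h => ⟨β, hβ, h⟩) (Le_step m h1)

lemma Al_Lt_add {α : Ordinal.{0}} {k : ℕ} (m : ℕ) {q : (ℕ → ℕ) → ℕ}
    (hq : Al k (fun s => Lt α (fun c => q (cat s c)))) :
    Al (k+m) (fun s => Lt α (fun c => q (cat s c))) := by
  rw [Al_add]
  refine Al_mono (fun s _ h => ?_) hq
  have := Lt_step m h
  refine Al_mono (fun t _ h' => ?_) this
  simpa only [cat_append] using h'

lemma Cst_of_bdd {q : (ℕ → ℕ) → ℕ} (hm : Measurable q) {N : ℕ} (h : Full {c | q c ≤ N}) :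
    Cst q := by
  induction N with
  | zero => exact ⟨0, h.mono fun c hc => Nat.le_zero.mp hc⟩
  | succ N ih =>
    rcases decision (hm (measurableSet_singleton (N+1))) with h1 | h1
    · exact ⟨N+1, h1⟩
    · refine ih ((h.inter h1).mono ?_)
      rintro c ⟨hc1, hc2⟩
      have h3 : q c ≠ N+1 := hc2
      have h4 : q c ≤ N+1 := hc1
      change q c ≤ N
      omega

lemma Le_of_le {α : Ordinal.{0}} {q q' : (ℕ → ℕ) → ℕ} (hm : Measurable q)
    (h : Full {c | q c ≤ q' c}) (hq : Le α q') : Le α q := by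
  induction α using WellFoundedLT.induction generalizing q q' with
  | ind α ih =>
    rw [le_iff] at hq
    rcases hq with ⟨N, hN⟩ | ⟨k, hk⟩
    · refine (Cst_of_bdd (N := N) hm ((h.inter hN).mono ?_)).Le α
      rintro c ⟨h1, h2⟩
      have h1' : q c ≤ q' c := h1
      have h2' : q' c = N := h2
      change q c ≤ N
      omega
    · rw [le_iff]
      refine Or.inr ⟨k, ?_⟩
      rw [full_iff_Al k] at h
      refine Al_mono (fun s _ hs => ?_) (Al_and h hk)
      obtain ⟨h1, β, hβ, h2⟩ := hs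
      exact ⟨β, hβ, ih β hβ (hm.comp (measurable_cat s)) h1 h2⟩

lemma Lt_of_le {α : Ordinal.{0}} {q q' : (ℕ → ℕ) → ℕ} (hm : Measurable q)
    (h : Full {c | q c ≤ q' c}) (hq : Lt α q') : Lt α q := by
  obtain ⟨β, hβ, h1⟩ := hq
  exact ⟨β, hβ, Le_of_le hm h h1⟩

lemma Le_max {α : Ordinal.{0}} {q q' : (ℕ → ℕ) → ℕ} (hq : Le α q) (hq' : Le α q') :
    Le α (fun c => max (q c) (q' c)) := by
  induction α using WellFoundedLT.induction generalizing q q' with
  | ind α ih =>
    have key : ∀ {p p' : (ℕ → ℕ) → ℕ}, Lt α p → Lt α p' → Lt α (fun c => max (p c) (p' c)) := by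
      rintro p p' ⟨β, hβ, h1⟩ ⟨β', hβ', h1'⟩
      refine ⟨max β β', max_lt hβ hβ', ih _ (max_lt hβ hβ') ?_ ?_⟩
      · exact Le_mono (le_max_left _ _) h1
      · exact Le_mono (le_max_right _ _) h1'
    have key2 : ∀ {p p' : (ℕ → ℕ) → ℕ}, Cst p → Lt α p' → Lt α (fun c => max (p c) (p' c)) := by
      rintro p p' hp ⟨β, hβ, h1⟩
      exact key ⟨β, hβ, hp.Le β⟩ ⟨β, hβ, h1⟩
    have key3 : ∀ {p p' : (ℕ → ℕ) → ℕ}, Cst p' → Lt α p → Lt α (fun c => max (p c) (p' c)) := by
      rintro p p' hp ⟨β, hβ, h1⟩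
      exact key ⟨β, hβ, h1⟩ ⟨β, hβ, hp.Le β⟩
    rw [le_iff] at hq hq'
    rcases hq with hq | ⟨k, hk⟩
    · rcases hq' with hq' | ⟨l, hl⟩
      · obtain ⟨N, hN⟩ := hq
        obtain ⟨N', hN'⟩ := hq'
        refine Cst.Le ⟨max N N', (hN.inter hN').mono ?_⟩ α
        rintro c ⟨h1, h2⟩
        change max (q c) (q' c) = max N N'
        rw [show q c = N from h1, show q' c = N' from h2]
      · rw [le_iff]
        refine Or.inr ⟨l, Al_mono (fun s _ hs => key2 hs.1 hs.2) (Al_and (hq.Al l) hl)⟩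
    · rcases hq' with hq' | ⟨l, hl⟩
      · rw [le_iff]
        refine Or.inr ⟨k, Al_mono (fun s _ hs => key3 hs.1 hs.2) (Al_and (hq'.Al k) hk)⟩
      · rw [le_iff]
        refine Or.inr ⟨k + l, ?_⟩
        have h1 := Al_Lt_add l hk
        have h2 := Al_Lt_add k hl
        rw [add_comm l k] at h2
        exact Al_mono (fun s _ hs => key hs.1 hs.2) (Al_and h1 h2)

lemma Lt_max {α : Ordinal.{0}} {q q' : (ℕ → ℕ) → ℕ} (hq : Lt α q) (hq' : Lt α q') :
    Lt α (fun c => max (q c) (q' c)) := by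
  obtain ⟨β, hβ, h1⟩ := hq
  obtain ⟨β', hβ', h1'⟩ := hq'
  exact ⟨max β β', max_lt hβ hβ',
    Le_max (Le_mono (le_max_left _ _) h1) (Le_mono (le_max_right _ _) h1')⟩

lemma Le_total {q : (ℕ → ℕ) → ℕ} (hm : Measurable q) : ∃ α : Ordinal.{0}, Le α q := by
  by_contra hno
  push Not at hno
  have := fusion (fun s => ∀ α : Ordinal.{0}, ¬ Le α (fun c => q (cat s c)))
    (fun n => {c | q c = n}) hno ?_ ?_
  · obtain ⟨c, hc⟩ := full_nonempty this
    exact hc (q c) rfl
  · intro s hs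
    by_contra hcon
    have hcon' : ∀ᶠ v in (U : Filter ℕ), ¬ ∀ α : Ordinal.{0},
      ¬ Le α (fun c => q (cat (s ++ [v]) c)) := Ultrafilter.eventually_not.mpr hcon
    have hall : ∀ v, ∃ α : Ordinal.{0}, (¬ ∀ α : Ordinal.{0},
      ¬ Le α (fun c => q (cat (s ++ [v]) c))) → Le α (fun c => q (cat (s ++ [v]) c)) := by
      intro v
      by_cases h : ∀ α : Ordinal.{0}, ¬ Le α (fun c => q (cat (s ++ [v]) c))
      · exact ⟨0, fun h' => absurd h h'⟩
      · push Not at h
        obtain ⟨α, hα⟩ := h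
        exact ⟨α, fun _ => hα⟩
    choose A hA using hall
    apply hs (Order.succ (⨆ v, A v))
    rw [le_iff]
    refine Or.inr ⟨1, ?_⟩
    rw [Al_succ]
    filter_upwards [hcon'] with v hv
    refine ⟨A v, ?_, ?_⟩
    · rw [Order.lt_succ_iff]
      exact Ordinal.le_iSup A v
    · have := hA v hv
      simp only [cat_append] at this
      exact this
  · intro s hs n
    have hms : MeasurableSet {c | q (cat s c) = n} :=
      (hm.comp (measurable_cat s)) (measurableSet_singleton n)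
    rcases decision hms with h | h
    · exfalso
      exact hs 0 (Cst.Le ⟨n, h⟩ 0)
    · exact h

/-- number of indices below `N` -/
lemma exists_cut {ρ : ℕ → ℕ} (hρ : StrictMono ρ) (N : ℕ) : ∃ k, ∀ m, ρ m < N ↔ m < k := by
  have hex : ∃ k, N ≤ ρ k := ⟨N, hρ.id_le N⟩
  refine ⟨Nat.find hex, fun m => ?_⟩
  constructor
  · intro h
    by_contra h'
    push Not at h'
    have := Nat.find_spec hex
    have := hρ.monotone h'
    omega
  · intro h
    have := Nat.find_min hex h
    omega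

lemma sub_zero' (ρ : ℕ → ℕ) (v : List ℕ) : sub ρ 0 v = [] := rfl

lemma sub_length (ρ : ℕ → ℕ) (k : ℕ) (v : List ℕ) : (sub ρ k v).length = k := by simp [sub]

lemma sub_getD (ρ : ℕ → ℕ) (k : ℕ) (v : List ℕ) (m : ℕ) (h : m < k) :
    (sub ρ k v).getD m 0 = v.getD (ρ m) 0 := by
  simp [sub, List.getD_eq_getElem?_getD, h]

lemma sub_cons_zero {ρ : ℕ → ℕ} (hρ : StrictMono ρ) (h0 : ρ 0 = 0) (k : ℕ) (x : ℕ) (v : List ℕ) :
    sub ρ (k+1) (x :: v) = x :: sub (fun m => ρ (m+1) - 1) k v := by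
  unfold sub
  rw [List.range_succ_eq_map, List.map_cons, h0, List.map_map]
  congr 1
  apply List.map_congr_left
  intro m _
  have : ρ 0 < ρ (m+1) := hρ (Nat.succ_pos m)
  simp only [Function.comp_apply, Nat.succ_eq_add_one]
  obtain ⟨y, hy⟩ : ∃ y, ρ (m+1) = y + 1 := ⟨ρ (m+1) - 1, by omega⟩
  rw [hy]
  simp

lemma sub_cons_pos {ρ : ℕ → ℕ} (hρ : StrictMono ρ) (h0 : 0 < ρ 0) (k : ℕ) (x : ℕ) (v : List ℕ) :
    sub ρ k (x :: v) = sub (fun m => ρ m - 1) k v := by
  unfold sub
  apply List.map_congr_left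
  intro m _
  have : ρ 0 ≤ ρ m := hρ.monotone (Nat.zero_le m)
  obtain ⟨y, hy⟩ : ∃ y, ρ m = y + 1 := ⟨ρ m - 1, by omega⟩
  change (x :: v).getD (ρ m) 0 = v.getD (ρ m - 1) 0
  rw [hy]
  simp

lemma cut_lemma (N : ℕ) : ∀ {ρ : ℕ → ℕ}, StrictMono ρ → ∀ {k : ℕ}, (∀ m, ρ m < N ↔ m < k) →
    ∀ P : List ℕ → Prop, (Al N (fun v => P (sub ρ k v)) ↔ Al k P) := by
  induction N with
  | zero =>
    intro ρ hρ k hk P
    have : k = 0 := by
      by_contra h
      have := (hk 0).mpr (Nat.pos_of_ne_zero h)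
      omega
    subst this
    rfl
  | succ N ih =>
    intro ρ hρ k hk P
    by_cases h0 : ρ 0 = 0
    · have hk0 : 0 < k := (hk 0).mp (by omega)
      obtain ⟨k', rfl⟩ : ∃ k', k = k' + 1 := ⟨k - 1, by omega⟩
      rw [Al_succ, Al_succ]
      have hρ' : StrictMono (fun m => ρ (m+1) - 1) := by
        intro a b hab
        have h1 : ρ (a+1) < ρ (b+1) := hρ (by omega)
        have h2 : ρ 0 < ρ (a+1) := hρ (by omega)
        change ρ (a+1) - 1 < ρ (b+1) - 1
        omega
      have hk' : ∀ m, (fun m => ρ (m+1) - 1) m < N ↔ m < k' := by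
        intro m
        have h1 := hk (m+1)
        have h2 : ρ 0 < ρ (m+1) := hρ (by omega)
        change ρ (m+1) - 1 < N ↔ m < k'
        constructor
        · intro h; have := h1.mp (by omega); omega
        · intro h; have := h1.mpr (by omega); omega
      refine Filter.eventually_congr (Filter.Eventually.of_forall fun x => ?_)
      rw [← ih hρ' hk' (fun s => P (x :: s))]
      simp only [sub_cons_zero hρ h0]
    · have h0' : 0 < ρ 0 := Nat.pos_of_ne_zero h0
      rw [Al_succ]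
      have hρ' : StrictMono (fun m => ρ m - 1) := by
        intro a b hab
        have h1 : ρ a < ρ b := hρ hab
        have h2 : ρ 0 ≤ ρ a := hρ.monotone (Nat.zero_le a)
        change ρ a - 1 < ρ b - 1
        omega
      have hk' : ∀ m, (fun m => ρ m - 1) m < N ↔ m < k := by
        intro m
        have h1 := hk m
        have h2 : ρ 0 ≤ ρ m := hρ.monotone (Nat.zero_le m)
        rw [← h1]
        change ρ m - 1 < N ↔ ρ m < N + 1
        omega
      simp only [sub_cons_pos hρ h0', ih hρ' hk' P]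
      exact Filter.eventually_const

/-- shifted embedding -/
def shf (ρ : ℕ → ℕ) (k N : ℕ) : ℕ → ℕ := fun m => ρ (m + k) - N

lemma shf_strictMono {ρ : ℕ → ℕ} (hρ : StrictMono ρ) {k N : ℕ} (hk : ∀ m, ρ m < N ↔ m < k) :
    StrictMono (shf ρ k N) := by
  intro a b hab
  have h1 : ρ (a+k) < ρ (b+k) := hρ (by omega)
  have h2 : ¬ ρ (a+k) < N := fun h => by have := (hk _).mp h; omega
  unfold shf
  omega

lemma cat_comp {ρ : ℕ → ℕ} {k N : ℕ} (hk : ∀ m, ρ m < N ↔ m < k) {v : List ℕ}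
    (hv : v.length = N) (c : ℕ → ℕ) :
    (cat v c) ∘ ρ = cat (sub ρ k v) (c ∘ shf ρ k N) := by
  funext m
  rw [Function.comp_apply, cat_apply, cat_apply, sub_length, hv]
  by_cases h : m < k
  · rw [if_pos h, if_pos ((hk m).mpr h), sub_getD _ _ _ _ h]
  · rw [if_neg h, if_neg (fun h' => h ((hk m).mp h'))]
    simp only [Function.comp_apply, shf]
    congr 2
    congr 1
    omega

lemma Cst_ext {q : (ℕ → ℕ) → ℕ} (hm : Measurable q) {ρ : ℕ → ℕ} (hρ : StrictMono ρ) :
    Cst q ↔ Cst (fun c => q (c ∘ ρ)) := by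
  constructor
  · rintro ⟨N, hN⟩
    exact ⟨N, full_comp hρ hN⟩
  · rintro ⟨N, hN⟩
    rcases decision (hm (measurableSet_singleton N)) with h | h
    · exact ⟨N, h⟩
    · exfalso
      obtain ⟨c, hc1, hc2⟩ := full_nonempty (hN.inter (full_comp hρ h))
      exact hc2 hc1

lemma Le_ext {α : Ordinal.{0}} {q : (ℕ → ℕ) → ℕ} (hm : Measurable q) {ρ : ℕ → ℕ}
    (hρ : StrictMono ρ) : Le α q ↔ Le α (fun c => q (c ∘ ρ)) := by
  induction α using WellFoundedLT.induction generalizing q ρ with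
  | ind α ih =>
    have key : ∀ {N k : ℕ} (_ : ∀ m, ρ m < N ↔ m < k) {v : List ℕ} (_ : v.length = N),
        (Lt α (fun c => q ((cat v c) ∘ ρ)) ↔ Lt α (fun c => q (cat (sub ρ k v) c))) := by
      intro N k hk v hv
      simp only [cat_comp hk hv]
      unfold Lt
      constructor
      · rintro ⟨β, hβ, h⟩
        refine ⟨β, hβ, ?_⟩
        exact (ih β hβ (hm.comp (measurable_cat (sub ρ k v))) (shf_strictMono hρ hk)).mpr h
      · rintro ⟨β, hβ, h⟩
        refine ⟨β, hβ, ?_⟩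
        exact (ih β hβ (hm.comp (measurable_cat (sub ρ k v))) (shf_strictMono hρ hk)).mp h
    rw [le_iff, le_iff]
    constructor
    · rintro (h | ⟨k, hk⟩)
      · exact Or.inl ((Cst_ext hm hρ).mp h)
      · right
        have hcut : ∀ m, ρ m < ρ k ↔ m < k := fun m => hρ.lt_iff_lt
        refine ⟨ρ k, ?_⟩
        rw [← cut_lemma (ρ k) hρ hcut] at hk
        exact Al_mono (fun s hs h => (key hcut hs).mpr h) hk
    · rintro (h | ⟨N, hN⟩)
      · exact Or.inl ((Cst_ext hm hρ).mpr h)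
      · right
        obtain ⟨k, hk⟩ := exists_cut hρ N
        refine ⟨k, ?_⟩
        rw [← cut_lemma N hρ hk]
        exact Al_mono (fun s hs h => (key hk hs).mp h) hN

lemma Lt_ext {α : Ordinal.{0}} {q : (ℕ → ℕ) → ℕ} (hm : Measurable q) {ρ : ℕ → ℕ}
    (hρ : StrictMono ρ) : Lt α q ↔ Lt α (fun c => q (c ∘ ρ)) := by
  unfold Lt
  constructor
  · rintro ⟨β, hβ, h⟩; exact ⟨β, hβ, (Le_ext hm hρ).mp h⟩
  · rintro ⟨β, hβ, h⟩; exact ⟨β, hβ, (Le_ext hm hρ).mpr h⟩

lemma transfer {α : Ordinal.{0}} {q : (ℕ → ℕ) → ℕ} (hm : Measurable q) {ρ : ℕ → ℕ}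
    (hρ : StrictMono ρ) {k N : ℕ} (hkN : ∀ m, m < k → ρ m < N)
    (h : Al k (fun s => Lt α (fun c => q (cat s c)))) :
    Al N (fun v => Lt α (fun c => q ((cat v c) ∘ ρ))) := by
  obtain ⟨k', hk'⟩ := exists_cut hρ N
  have hkk' : k ≤ k' := by
    by_contra h'
    push Not at h'
    have := (hk' k').mp (hkN k' h')
    omega
  obtain ⟨m, rfl⟩ := Nat.exists_eq_add_of_le hkk'
  have h1 := Al_Lt_add m h
  rw [← cut_lemma N hρ hk'] at h1
  refine Al_mono (fun v hv h2 => ?_) h1
  simp only [cat_comp hk' hv]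
  exact (Lt_ext (hm.comp (measurable_cat _)) (shf_strictMono hρ hk')).mp h2

lemma inv_lemma {q : (ℕ → ℕ) → ℕ} (hm : Measurable q) {θ : ℕ → ℕ} (hθ : StrictMono θ)
    (h0 : 1 ≤ θ 0) (h : Full {c | q c = q (c ∘ θ)}) : Cst q := by
  by_contra hC
  obtain ⟨α, hα, hmin⟩ : ∃ α : Ordinal.{0}, Le α q ∧ ∀ β < α, ¬ Le β q := by
    have hw := WellFounded.has_min (wellFounded_lt (α := Ordinal.{0})) {α | Le α q} (Le_total hm)
    obtain ⟨α, h1, h2⟩ := hw
    exact ⟨α, h1, fun β hβ h' => h2 β h' hβ⟩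
  rw [le_iff] at hα
  rcases hα with hα | ⟨k, hk⟩
  · exact hC hα
  · have hit : ∀ j : ℕ, StrictMono (θ^[j]) := fun j => hθ.iterate j
    have hit0 : ∀ j : ℕ, j ≤ θ^[j] 0 := by
      intro j
      induction j with
      | zero => exact Nat.zero_le _
      | succ j ih =>
        rw [Function.iterate_succ_apply']
        have h1 : θ 0 + θ^[j] 0 ≤ θ (θ^[j] 0) := by
          have : ∀ n, θ 0 + n ≤ θ n := by
            intro n
            induction n with
            | zero => omega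
            | succ n ih' => have := hθ (show n < n + 1 by omega); omega
          exact this _
        omega
    have hfull : ∀ j : ℕ, Full {c | q c = q (c ∘ θ^[j])} := by
      intro j
      induction j with
      | zero => exact full_univ.mono fun c _ => rfl
      | succ j ih =>
        refine (ih.inter (full_comp (hit j) h)).mono ?_
        rintro c ⟨h1, h2⟩
        have h1' : q c = q (c ∘ θ^[j]) := h1
        have h2' : q (c ∘ θ^[j]) = q ((c ∘ θ^[j]) ∘ θ) := h2
        change q c = q (c ∘ θ^[j+1])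
        rw [h1', h2', Function.comp_assoc, Function.iterate_succ]
    have h1 := hfull k
    rw [full_iff_Al k] at h1
    obtain ⟨v, hv, hv1, β, hβ, hv2⟩ := Al_exists (Al_and h1 hk)
    apply hmin β hβ
    have hcut : ∀ m, (θ^[k]) m < k ↔ m < 0 := by
      intro m
      have h2 := hit0 k
      have h3 := (hit k).monotone (Nat.zero_le m)
      constructor
      · intro h4; omega
      · intro h4; omega
    have h4 : Le β (fun c => q (c ∘ shf (θ^[k]) 0 k)) := by
      refine Le_of_le (hm.comp (measurable_compr _)) ?_ hv2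
      refine hv1.mono fun c hc => ?_
      have hc' : q (cat v c) = q ((cat v c) ∘ θ^[k]) := hc
      rw [cat_comp hcut hv, sub_zero', cat_nil] at hc'
      exact hc'.ge
    exact (Le_ext hm (shf_strictMono (hit k) hcut)).mpr h4

end Pool.Agent.Lib.MP7df21e
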