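import Mathlib
import Pool.Agent.Lib.MP_7df21e_lc.Rank

set_option autoImplicit false

namespace Pool.Agent.Lib.MP7df21e

open Filter

/-- the space -/
abbrev XX : Type := ℕ → ℕ → ℕ

/-- the tail relation over `E_1` (rows shifted) -/
def RR (a a' : XX) : Prop := ∃ m n r : ℕ, ∀ i, r ≤ i → ∀ j, a i (j+n) = a' i (j+m)

/-- `f` witnesses hypersmoothness of `RR` -/
structure Wit (f : ℕ → XX → (ℕ → Bool)) : Prop where
  meas : ∀ n, Measurable (f n)
  mono : ∀ n a a', f n a = f n a' → f (n+1) a = f (n+1) a'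
  iff : ∀ a a', RR a a' ↔ ∃ n, f n a = f n a'

/-- first stage -/
noncomputable def ee (f : ℕ → XX → (ℕ → Bool)) (a a' : XX) : ℕ := sInf {n | f n a = f n a'}

lemma Wit.mono' {f : ℕ → XX → (ℕ → Bool)} (hf : Wit f) {n m : ℕ} (h : n ≤ m) {a a' : XX}
    (h1 : f n a = f n a') : f m a = f m a' := by
  induction m, h using Nat.le_induction with
  | base => exact h1
  | succ m _ ih => exact hf.mono m a a' ih

lemma Wit.spec {f : ℕ → XX → (ℕ → Bool)} (hf : Wit f) {a a' : XX} (h : RR a a') :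
    f (ee f a a') a = f (ee f a a') a' :=
  Nat.sInf_mem (s := {n | f n a = f n a'}) ((hf.iff a a').mp h)

lemma Wit.le_iff {f : ℕ → XX → (ℕ → Bool)} (hf : Wit f) {a a' : XX} (h : RR a a') (n : ℕ) :
    ee f a a' ≤ n ↔ f n a = f n a' := by
  constructor
  · intro h1
    exact hf.mono' h1 (hf.spec h)
  · intro h1
    exact Nat.sInf_le h1

lemma ee_symm (f : ℕ → XX → (ℕ → Bool)) (a a' : XX) : ee f a a' = ee f a' a := by
  unfold ee
  congr 1
  ext n
  exact eq_comm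

lemma Wit.tri {f : ℕ → XX → (ℕ → Bool)} (hf : Wit f) {a b c : XX} (h1 : RR a b) (h2 : RR b c) :
    ee f a c ≤ max (ee f a b) (ee f b c) := by
  have h3 : f (max (ee f a b) (ee f b c)) a = f (max (ee f a b) (ee f b c)) b :=
    hf.mono' (le_max_left _ _) (hf.spec h1)
  have h4 : f (max (ee f a b) (ee f b c)) b = f (max (ee f a b) (ee f b c)) c :=
    hf.mono' (le_max_right _ _) (hf.spec h2)
  exact Nat.sInf_le (h3.trans h4)

lemma Wit.trans {f : ℕ → XX → (ℕ → Bool)} (hf : Wit f) {a b c : XX} (h1 : RR a b) (h2 : RR b c) :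
    RR a c := by
  rw [hf.iff]
  have h3 : f (max (ee f a b) (ee f b c)) a = f (max (ee f a b) (ee f b c)) b :=
    hf.mono' (le_max_left _ _) (hf.spec h1)
  have h4 : f (max (ee f a b) (ee f b c)) b = f (max (ee f a b) (ee f b c)) c :=
    hf.mono' (le_max_right _ _) (hf.spec h2)
  exact ⟨_, h3.trans h4⟩

lemma Wit.symm {f : ℕ → XX → (ℕ → Bool)} (hf : Wit f) {a b : XX} (h1 : RR a b) : RR b a := by
  rw [hf.iff] at *
  obtain ⟨n, hn⟩ := h1
  exact ⟨n, hn.symm⟩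

lemma Wit.ee_meas {f : ℕ → XX → (ℕ → Bool)} (hf : Wit f) {g h : (ℕ → ℕ) → XX}
    (hg : Measurable g) (hh : Measurable h) (hgh : ∀ c, RR (g c) (h c)) :
    Measurable (fun c => ee f (g c) (h c)) := by
  apply measurable_of_Iic
  intro n
  have : (fun c => ee f (g c) (h c)) ⁻¹' Set.Iic n = {c | f n (g c) = f n (h c)} := by
    ext c
    exact hf.le_iff (hgh c) n
  rw [this]
  exact measurableSet_eq_fun ((hf.meas n).comp hg) ((hf.meas n).comp hh)

/-- shifting far entries -/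
def Th (s : ℕ) (a : XX) : XX := fun i j => if i + j < s then a i j else a i (j+1)

lemma RR_Th (s : ℕ) (a : XX) : RR a (Th s a) := by
  refine ⟨0, 1, s, fun i hi j => ?_⟩
  unfold Th
  rw [if_neg (by omega)]

lemma RR_rows {a a' : XX} (s : ℕ) (h : ∀ i, s ≤ i → ∀ j, a i j = a' i j) : RR a a' :=
  ⟨0, 0, s, fun i hi j => h i hi j⟩

/-- laws -/
def law (r : ℕ) (u : XX) (p : ℕ → ℕ → ℕ) (c : ℕ → ℕ) : XX :=
  fun i j => if i + j < r then u i j else c (p i j)

lemma measurable_law (r : ℕ) (u : XX) (p : ℕ → ℕ → ℕ) : Measurable (law r u p) := by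
  rw [measurable_pi_iff]
  intro i
  rw [measurable_pi_iff]
  intro j
  unfold law
  by_cases h : i + j < r
  · simp only [h, if_true]; exact measurable_const
  · simp only [h, if_false]; exact measurable_pi_apply _

lemma law_comp (r : ℕ) (u : XX) (p : ℕ → ℕ → ℕ) (c ρ : ℕ → ℕ) :
    law r u p (c ∘ ρ) = law r u (fun i j => ρ (p i j)) c := rfl

lemma law_congr {r : ℕ} {u : XX} {p p' : ℕ → ℕ → ℕ} (c : ℕ → ℕ)
    (h : ∀ i j, r ≤ i + j → p i j = p' i j) : law r u p c = law r u p' c := by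
  funext i j
  unfold law
  by_cases h1 : i + j < r
  · rw [if_pos h1, if_pos h1]
  · rw [if_neg h1, if_neg h1, h i j (by omega)]

lemma Th_law {r s : ℕ} (hrs : r ≤ s) (u : XX) (p : ℕ → ℕ → ℕ) (c : ℕ → ℕ) :
    Th s (law r u p c) = law r u (fun i j => if i + j < s then p i j else p i (j+1)) c := by
  funext i j
  unfold Th law
  by_cases h : i + j < s
  · simp only [h, if_true]
  · have h1 : ¬ i + j < r := by omega
    have h2 : ¬ i + (j + 1) < r := by omega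
    simp only [h, h1, h2, if_false]

/-- index of the pair -/
def tm (x0 x i : ℕ) : ℕ := x * x + i - x0 * x0

/-- the embedding -/
def emb (x0 y0 : ℕ) (ξ : ℕ → ℕ → ℕ) (n : ℕ) : ℕ :=
  tm y0 (ξ (Nat.sqrt (n + x0 * x0)) (n + x0 * x0 - Nat.sqrt (n + x0 * x0) * Nat.sqrt (n + x0 * x0)))
    (n + x0 * x0 - Nat.sqrt (n + x0 * x0) * Nat.sqrt (n + x0 * x0))

lemma emb_of_eq {x0 y0 : ℕ} {ξ : ℕ → ℕ → ℕ} {n x i : ℕ} (h : n + x0 * x0 = x * x + i)
    (hi : i ≤ 2 * x) : emb x0 y0 ξ n = tm y0 (ξ x i) i := by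
  unfold emb
  rw [h, Nat.sqrt_add_eq x (by omega : i ≤ x + x), Nat.add_sub_cancel_left]

lemma emb_tm {x0 y0 : ℕ} {ξ : ℕ → ℕ → ℕ} {x i : ℕ} (hx : x0 ≤ x) (hi : i ≤ 2 * x) :
    emb x0 y0 ξ (tm x0 x i) = tm y0 (ξ x i) i := by
  apply emb_of_eq _ hi
  unfold tm
  have : x0 * x0 ≤ x * x := Nat.mul_le_mul hx hx
  omega

lemma decomp (x0 n : ℕ) : ∃ x i, x0 ≤ x ∧ i ≤ 2 * x ∧ n + x0 * x0 = x * x + i := by
  refine ⟨Nat.sqrt (n + x0 * x0), n + x0 * x0 - Nat.sqrt (n + x0 * x0) * Nat.sqrt (n + x0 * x0),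
    ?_, ?_, ?_⟩
  · rw [Nat.le_sqrt]; omega
  · have := Nat.sqrt_le_add (n + x0 * x0)
    omega
  · have := Nat.sqrt_le (n + x0 * x0)
    omega

/-- conditions on the level map -/
def Gd (x0 y0 : ℕ) (ξ : ℕ → ℕ → ℕ) : Prop :=
  (∀ x, x0 ≤ x → ∀ i, x ≤ ξ x i ∧ y0 ≤ ξ x i) ∧
  (∀ x, x0 ≤ x → ∀ i i', i ≤ i' → ξ x i ≤ ξ x i') ∧
  (∀ x, x0 ≤ x → ∀ i i', ξ x i < ξ (x+1) i')

lemma Gd.lt {x0 y0 : ℕ} {ξ : ℕ → ℕ → ℕ} (h : Gd x0 y0 ξ) {x x' : ℕ} (hx : x0 ≤ x) (hxx' : x < x')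
    (i i' : ℕ) : ξ x i < ξ x' i' := by
  obtain ⟨_, _, h3⟩ := h
  induction x', hxx' using Nat.le_induction generalizing i' with
  | base => exact h3 x hx i i'
  | succ x' hx' ih => exact (ih i').trans (h3 x' (by omega) i' i')

lemma Gd.strictMono {x0 y0 : ℕ} {ξ : ℕ → ℕ → ℕ} (h : Gd x0 y0 ξ) : StrictMono (emb x0 y0 ξ) := by
  intro n n' hnn'
  obtain ⟨x, i, hx, hi, he⟩ := decomp x0 n
  obtain ⟨x', i', hx', hi', he'⟩ := decomp x0 n'
  rw [emb_of_eq he hi, emb_of_eq he' hi']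
  obtain ⟨h1, h2, h3⟩ := id h
  have hy := (h1 x hx i).2
  have hy' := (h1 x' hx' i').2
  have hyy : y0 * y0 ≤ ξ x i * ξ x i := Nat.mul_le_mul hy hy
  have hyy' : y0 * y0 ≤ ξ x' i' * ξ x' i' := Nat.mul_le_mul hy' hy'
  unfold tm
  have hlt : x * x + i < x' * x' + i' := by omega
  rcases lt_trichotomy x x' with hxx | hxx | hxx
  · have h4 := h.lt hx hxx i i'
    have h5 : (ξ x i + 1) * (ξ x i + 1) ≤ ξ x' i' * ξ x' i' := Nat.mul_le_mul h4 h4
    have h6 := (h1 x hx i).1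
    have h7 : (ξ x i + 1) * (ξ x i + 1) = ξ x i * ξ x i + 2 * ξ x i + 1 := by ring
    omega
  · subst hxx
    have h4 : i < i' := by omega
    have h5 := h2 x hx i i' h4.le
    have h6 : ξ x i * ξ x i ≤ ξ x i' * ξ x i' := Nat.mul_le_mul h5 h5
    omega
  · exfalso
    have h5 : (x' + 1) * (x' + 1) ≤ x * x := Nat.mul_le_mul hxx hxx
    have h7 : (x' + 1) * (x' + 1) = x' * x' + 2 * x' + 1 := by ring
    omega

lemma emb_lt {x0 y0 : ℕ} {ξ : ℕ → ℕ → ℕ} (h : Gd x0 y0 ξ) {M N : ℕ}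
    (hb : ∀ x i, x0 ≤ x → i ≤ 2 * x → x * x + i < M + x0 * x0 → ξ x i * ξ x i + i < N + y0 * y0)
    {m : ℕ} (hm : m < M) : emb x0 y0 ξ m < N := by
  obtain ⟨x, i, hx, hi, he⟩ := decomp x0 m
  rw [emb_of_eq he hi]
  have h1 := hb x i hx hi (by omega)
  have hy := (h.1 x hx i).2
  have hyy : y0 * y0 ≤ ξ x i * ξ x i := Nat.mul_le_mul hy hy
  unfold tm
  omega

/-- The law `A`. -/
def A1 (r : ℕ) (u : XX) : (ℕ → ℕ) → XX := law r u (fun i j => tm r (i+j) i)

/-- The law `B1`. -/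
def B1 (r s : ℕ) (u : XX) : (ℕ → ℕ) → XX :=
  law r u (fun i j => if i < s then tm (3*r) (3*(i+j)) i else tm (3*r) (3*(i+j)+2) i)

/-- The law `B2`. -/
def B2 (r s : ℕ) (u : XX) : (ℕ → ℕ) → XX :=
  law r u (fun i j => if i < s then tm (3*r) (3*(i+j)+1) i else tm (3*r) (3*(i+j)+2) i)

/-- The law `b`. -/
def bb (r s : ℕ) (u : XX) : (ℕ → ℕ) → XX :=
  law r u (fun i j => if i < s then tm (8*r) (8*(i+j)) i else tm (8*r) (8*(i+j)+7) i)

/-- The law `t1`. -/
def t1 (r s : ℕ) (u : XX) : (ℕ → ℕ) → XX :=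
  law r u (fun i j => if i + j < s then tm (8*r) (8*(i+j)+4) i else
    if i < s then tm (8*r) (8*(i+j+1)+1) i else tm (8*r) (8*(i+j+1)+7) i)

/-- The law `t2`. -/
def t2 (r s : ℕ) (u : XX) : (ℕ → ℕ) → XX :=
  law r u (fun i j => if i < s then tm (8*r) (8*(i+j+1)+2) i else tm (8*r) (8*(i+j+1)+7) i)

/-- level maps -/
def x1 (s : ℕ) : ℕ → ℕ → ℕ := fun x i => if i < s then 3*x else 3*x+2
/-- level maps -/
def x2 (s : ℕ) : ℕ → ℕ → ℕ := fun x i => if i < s then 3*x+1 else 3*x+2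
/-- level maps -/
def x3 : ℕ → ℕ → ℕ := fun x _ => x+1
/-- level maps -/
def x4 : ℕ → ℕ → ℕ := fun x _ => x+3
/-- level maps -/
def x5 (s : ℕ) : ℕ → ℕ → ℕ := fun x i => if i < s then 8*x else 8*x+7
/-- level maps -/
def xa (s : ℕ) : ℕ → ℕ → ℕ := fun x _ =>
  if x / 3 < s then (if x % 3 = 0 then 8 * (x/3) else if x % 3 = 1 then 8*(x/3)+4 else 8*(x/3)+7)
  else (if x % 3 = 0 then 8 * (x/3+1) else if x % 3 = 1 then 8*(x/3+1)+1 else 8*(x/3+1)+7)
/-- level maps -/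
def xb (s : ℕ) : ℕ → ℕ → ℕ := fun x _ =>
  if x / 3 < s then
    (if x % 3 = 0 then 8 * (x/3)+4 else if x % 3 = 1 then 8*(x/3+1)+2 else 8*(x/3+1)+3)
  else (if x % 3 = 0 then 8 * (x/3+1)+1 else if x % 3 = 1 then 8*(x/3+1)+2 else 8*(x/3+1)+7)
/-- level maps -/
def xc : ℕ → ℕ → ℕ := fun x _ =>
  if x % 3 = 0 then 8 * (x/3+1) else if x % 3 = 1 then 8*(x/3+1)+2 else 8*(x/3+1)+7

lemma Gd_x1 (r s : ℕ) : Gd r (3*r) (x1 s) := by
  refine ⟨fun x hx i => ?_, fun x hx i i' hi => ?_, fun x hx i i' => ?_⟩ <;>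
  unfold x1 <;> split_ifs <;> omega

lemma Gd_x2 (r s : ℕ) : Gd r (3*r) (x2 s) := by
  refine ⟨fun x hx i => ?_, fun x hx i i' hi => ?_, fun x hx i i' => ?_⟩ <;>
  unfold x2 <;> split_ifs <;> omega

lemma Gd_x3 (r : ℕ) : Gd r r x3 := by
  refine ⟨fun x hx i => ?_, fun x hx i i' hi => ?_, fun x hx i i' => ?_⟩ <;>
  unfold x3 <;> omega

lemma Gd_x4 (r : ℕ) : Gd (3*r) (3*r) x4 := by
  refine ⟨fun x hx i => ?_, fun x hx i i' hi => ?_, fun x hx i i' => ?_⟩ <;>
  unfold x4 <;> omega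

lemma Gd_x5 (r s : ℕ) : Gd r (8*r) (x5 s) := by
  refine ⟨fun x hx i => ?_, fun x hx i i' hi => ?_, fun x hx i i' => ?_⟩ <;>
  unfold x5 <;> split_ifs <;> omega

lemma Gd_xa (r s : ℕ) : Gd (3*r) (8*r) (xa s) := by
  refine ⟨fun x hx i => ?_, fun x hx i i' hi => ?_, fun x hx i i' => ?_⟩
  · unfold xa; split_ifs <;> omega
  · unfold xa; exact le_rfl
  · unfold xa; split_ifs <;> omega

lemma Gd_xb (r s : ℕ) : Gd (3*r) (8*r) (xb s) := by
  refine ⟨fun x hx i => ?_, fun x hx i i' hi => ?_, fun x hx i i' => ?_⟩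
  · unfold xb; split_ifs <;> omega
  · unfold xb; exact le_rfl
  · unfold xb; split_ifs <;> omega

lemma Gd_xc (r : ℕ) : Gd (3*r) (8*r) xc := by
  refine ⟨fun x hx i => ?_, fun x hx i i' hi => ?_, fun x hx i i' => ?_⟩
  · unfold xc; split_ifs <;> omega
  · unfold xc; exact le_rfl
  · unfold xc; split_ifs <;> omega

lemma tm_congr {y0 x x' i : ℕ} (h : x = x') : tm y0 x i = tm y0 x' i := by rw [h]

lemma E1 (r s : ℕ) (u : XX) (c : ℕ → ℕ) :
    B1 r s u c = A1 r u (c ∘ emb r (3*r) (x1 s)) := by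
  unfold B1 A1
  rw [law_comp]
  apply law_congr
  intro i j hij
  rw [emb_tm hij (by omega)]
  unfold x1
  split_ifs <;> rfl

lemma E2 (r s : ℕ) (u : XX) (c : ℕ → ℕ) :
    B2 r s u c = A1 r u (c ∘ emb r (3*r) (x2 s)) := by
  unfold B2 A1
  rw [law_comp]
  apply law_congr
  intro i j hij
  rw [emb_tm hij (by omega)]
  unfold x2
  split_ifs <;> rfl

lemma E3 (r : ℕ) (u : XX) (c : ℕ → ℕ) :
    Th r (A1 r u c) = A1 r u (c ∘ emb r r x3) := by
  unfold A1
  rw [law_comp, Th_law le_rfl]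
  apply law_congr
  intro i j hij
  rw [emb_tm hij (by omega), if_neg (by omega)]
  unfold x3
  exact tm_congr (by omega)

lemma E4a (r s : ℕ) (u : XX) (c : ℕ → ℕ) :
    Th r (B1 r s u c) = B1 r s u (c ∘ emb (3*r) (3*r) x4) := by
  unfold B1
  rw [law_comp, Th_law le_rfl]
  apply law_congr
  intro i j hij
  rw [if_neg (by omega)]
  split_ifs with h
  · rw [emb_tm (by omega) (by omega)]
    unfold x4; exact tm_congr (by omega)
  · rw [emb_tm (by omega) (by omega)]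
    unfold x4; exact tm_congr (by omega)

lemma E4b (r s : ℕ) (u : XX) (c : ℕ → ℕ) :
    Th r (B2 r s u c) = B2 r s u (c ∘ emb (3*r) (3*r) x4) := by
  unfold B2
  rw [law_comp, Th_law le_rfl]
  apply law_congr
  intro i j hij
  rw [if_neg (by omega)]
  split_ifs with h
  · rw [emb_tm (by omega) (by omega)]
    unfold x4; exact tm_congr (by omega)
  · rw [emb_tm (by omega) (by omega)]
    unfold x4; exact tm_congr (by omega)

lemma E5 (r s : ℕ) (u : XX) (c : ℕ → ℕ) :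
    bb r s u c = A1 r u (c ∘ emb r (8*r) (x5 s)) := by
  unfold bb A1
  rw [law_comp]
  apply law_congr
  intro i j hij
  rw [emb_tm hij (by omega)]
  unfold x5
  split_ifs <;> rfl

lemma E6a {r s : ℕ} (hrs : r ≤ s) (u : XX) (c : ℕ → ℕ) :
    Th s (bb r s u c) = B1 r s u (c ∘ emb (3*r) (8*r) (xa s)) := by
  unfold bb B1
  rw [law_comp, Th_law hrs]
  apply law_congr
  intro i j hij
  by_cases h1 : i + j < s
  · rw [if_pos h1, if_pos (by omega), if_pos (by omega), emb_tm (by omega) (by omega)]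
    apply tm_congr; unfold xa; split_ifs <;> omega
  · rw [if_neg h1]
    by_cases h2 : i < s
    · rw [if_pos h2, if_pos h2, emb_tm (by omega) (by omega)]
      apply tm_congr; unfold xa; split_ifs <;> omega
    · rw [if_neg h2, if_neg h2, emb_tm (by omega) (by omega)]
      apply tm_congr; unfold xa; split_ifs <;> omega

lemma E6b (r s : ℕ) (u : XX) (c : ℕ → ℕ) :
    t1 r s u c = B2 r s u (c ∘ emb (3*r) (8*r) (xa s)) := by
  unfold t1 B2
  rw [law_comp]
  apply law_congr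
  intro i j hij
  by_cases h1 : i + j < s
  · rw [if_pos h1, if_pos (by omega), emb_tm (by omega) (by omega)]
    apply tm_congr; unfold xa; split_ifs <;> omega
  · rw [if_neg h1]
    by_cases h2 : i < s
    · rw [if_pos h2, if_pos h2, emb_tm (by omega) (by omega)]
      apply tm_congr; unfold xa; split_ifs <;> omega
    · rw [if_neg h2, if_neg h2, emb_tm (by omega) (by omega)]
      apply tm_congr; unfold xa; split_ifs <;> omega

lemma E7a (r s : ℕ) (u : XX) (c : ℕ → ℕ) :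
    t1 r s u c = B1 r s u (c ∘ emb (3*r) (8*r) (xb s)) := by
  unfold t1 B1
  rw [law_comp]
  apply law_congr
  intro i j hij
  by_cases h1 : i + j < s
  · rw [if_pos h1, if_pos (by omega), emb_tm (by omega) (by omega)]
    apply tm_congr; unfold xb; split_ifs <;> omega
  · rw [if_neg h1]
    by_cases h2 : i < s
    · rw [if_pos h2, if_pos h2, emb_tm (by omega) (by omega)]
      apply tm_congr; unfold xb; split_ifs <;> omega
    · rw [if_neg h2, if_neg h2, emb_tm (by omega) (by omega)]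
      apply tm_congr; unfold xb; split_ifs <;> omega

lemma E7b (r s : ℕ) (u : XX) (c : ℕ → ℕ) :
    t2 r s u c = B2 r s u (c ∘ emb (3*r) (8*r) (xb s)) := by
  unfold t2 B2
  rw [law_comp]
  apply law_congr
  intro i j hij
  by_cases h2 : i < s
  · rw [if_pos h2, if_pos h2, emb_tm (by omega) (by omega)]
    apply tm_congr; unfold xb; split_ifs <;> omega
  · rw [if_neg h2, if_neg h2, emb_tm (by omega) (by omega)]
    apply tm_congr; unfold xb; split_ifs <;> omega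

lemma E8a (r s : ℕ) (u : XX) (c : ℕ → ℕ) :
    Th r (bb r s u c) = B1 r s u (c ∘ emb (3*r) (8*r) xc) := by
  unfold bb B1
  rw [law_comp, Th_law le_rfl]
  apply law_congr
  intro i j hij
  rw [if_neg (by omega)]
  by_cases h2 : i < s
  · rw [if_pos h2, if_pos h2, emb_tm (by omega) (by omega)]
    apply tm_congr; unfold xc; split_ifs <;> omega
  · rw [if_neg h2, if_neg h2, emb_tm (by omega) (by omega)]
    apply tm_congr; unfold xc; split_ifs <;> omega

lemma E8b (r s : ℕ) (u : XX) (c : ℕ → ℕ) :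
    t2 r s u c = B2 r s u (c ∘ emb (3*r) (8*r) xc) := by
  unfold t2 B2
  rw [law_comp]
  apply law_congr
  intro i j hij
  by_cases h2 : i < s
  · rw [if_pos h2, if_pos h2, emb_tm (by omega) (by omega)]
    apply tm_congr; unfold xc; split_ifs <;> omega
  · rw [if_neg h2, if_neg h2, emb_tm (by omega) (by omega)]
    apply tm_congr; unfold xc; split_ifs <;> omega

lemma E9 {r s : ℕ} (hrs : r ≤ s) (u : XX) {v : List ℕ}
    (hv : v.length = (8*s)*(8*s) - (8*r)*(8*r)) (c : ℕ → ℕ) :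
    bb r s u (cat v c) = A1 s (bb r s u (cat v (fun _ => 0))) (c ∘ emb s (8*s) (x5 s)) := by
  have hsq : (8*r)*(8*r) ≤ (8*s)*(8*s) := Nat.mul_le_mul (by omega) (by omega)
  unfold A1
  rw [law_comp]
  funext i j
  conv_rhs => unfold law
  by_cases h : i + j < s
  · rw [if_pos h]
    unfold bb law
    by_cases h1 : i + j < r
    · rw [if_pos h1, if_pos h1]
    · rw [if_neg h1, if_neg h1]
      beta_reduce
      rw [if_pos (by omega : i < s)]
      rw [cat_apply, cat_apply, hv]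
      have hlt : tm (8*r) (8*(i+j)) i < (8*s)*(8*s) - (8*r)*(8*r) := by
        unfold tm
        have h3 : (8*r)*(8*r) ≤ (8*(i+j))*(8*(i+j)) := Nat.mul_le_mul (by omega) (by omega)
        have h4 : (8*(i+j+1))*(8*(i+j+1)) ≤ (8*s)*(8*s) := Nat.mul_le_mul (by omega) (by omega)
        have h5 : (8*(i+j+1))*(8*(i+j+1)) = (8*(i+j))*(8*(i+j)) + 128*(i+j) + 64 := by ring
        omega
      rw [if_pos hlt, if_pos hlt]
  · rw [if_neg h]
    unfold bb law
    rw [if_neg (by omega)]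
    beta_reduce
    rw [emb_tm (by omega) (by omega), cat_apply, hv]
    have hge : ∀ x, 8*s ≤ x → ¬ tm (8*r) x i < (8*s)*(8*s) - (8*r)*(8*r) := by
      intro x hx
      unfold tm
      have h3 : (8*s)*(8*s) ≤ x*x := Nat.mul_le_mul hx hx
      omega
    have heq : ∀ x, 8*s ≤ x → tm (8*r) x i - ((8*s)*(8*s) - (8*r)*(8*r)) = tm (8*s) x i := by
      intro x hx
      unfold tm
      have h3 : (8*s)*(8*s) ≤ x*x := Nat.mul_le_mul hx hx
      omega
    unfold x5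
    by_cases h2 : i < s
    · rw [if_pos h2, if_pos h2, if_neg (hge _ (by omega)), heq _ (by omega)]
    · rw [if_neg h2, if_neg h2, if_neg (hge _ (by omega)), heq _ (by omega)]

end Pool.Agent.Lib.MP7df21e
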