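import Mathlib
import Pool.Agent.Lib.MP_7df21e_lc.Laws

set_option autoImplicit false

namespace Pool.Agent.Lib.MP7df21e

open Filter

lemma measurable_A1 (r : ℕ) (u : XX) : Measurable (A1 r u) := measurable_law _ _ _
lemma measurable_B1 (r s : ℕ) (u : XX) : Measurable (B1 r s u) := measurable_law _ _ _
lemma measurable_B2 (r s : ℕ) (u : XX) : Measurable (B2 r s u) := measurable_law _ _ _
lemma measurable_bb (r s : ℕ) (u : XX) : Measurable (bb r s u) := measurable_law _ _ _

lemma measurable_Th (s : ℕ) : Measurable (Th s) := by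
  rw [measurable_pi_iff]
  intro i
  rw [measurable_pi_iff]
  intro j
  unfold Th
  by_cases h : i + j < s
  · simp only [h, if_true]
    exact (measurable_pi_apply j).comp (measurable_pi_apply i)
  · simp only [h, if_false]
    exact (measurable_pi_apply (j+1)).comp (measurable_pi_apply i)

/-- cost of the basic shift -/
noncomputable def Cc (f : ℕ → XX → (ℕ → Bool)) (r : ℕ) (u : XX) (c : ℕ → ℕ) : ℕ :=
  ee f (A1 r u c) (Th r (A1 r u c))

/-- cost of the pair -/
noncomputable def WW (f : ℕ → XX → (ℕ → Bool)) (r s : ℕ) (u : XX) (c : ℕ → ℕ) : ℕ :=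
  ee f (B1 r s u c) (B2 r s u c)

lemma RR_BB (r s : ℕ) (u : XX) (c : ℕ → ℕ) : RR (B1 r s u c) (B2 r s u c) := by
  refine RR_rows s fun i hi j => ?_
  unfold B1 B2 law
  by_cases h : i + j < r
  · rw [if_pos h, if_pos h]
  · rw [if_neg h, if_neg h]
    beta_reduce
    rw [if_neg (by omega), if_neg (by omega)]

lemma Cc_meas {f : ℕ → XX → (ℕ → Bool)} (hf : Wit f) (r : ℕ) (u : XX) : Measurable (Cc f r u) :=
  hf.ee_meas (measurable_A1 r u) ((measurable_Th r).comp (measurable_A1 r u)) fun _ => RR_Th _ _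

lemma WW_meas {f : ℕ → XX → (ℕ → Bool)} (hf : Wit f) (r s : ℕ) (u : XX) :
    Measurable (WW f r s u) :=
  hf.ee_meas (measurable_B1 r s u) (measurable_B2 r s u) fun _ => RR_BB _ _ _ _

lemma const_of_inv {h : (ℕ → ℕ) → (ℕ → Bool)} (hm : Measurable h) {θ : ℕ → ℕ}
    (hθ : StrictMono θ) (h0 : 1 ≤ θ 0) (hfull : Full {c | h c = h (c ∘ θ)}) :
    ∃ g, Full {c | h c = g} := by
  have hbit : ∀ k, ∃ b : Bool, Full {c | h c k = b} := by
    intro k
    have hmk : Measurable (fun c => (h c k).toNat) :=
      (measurable_of_countable (f := fun b : Bool => b.toNat)).comp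
        ((measurable_pi_apply k).comp hm)
    obtain ⟨N, hN⟩ := inv_lemma hmk hθ h0 (hfull.mono fun c hc => by
      have : h c = h (c ∘ θ) := hc
      change (h c k).toNat = (h (c ∘ θ) k).toNat
      rw [this])
    obtain ⟨c0, hc0⟩ := full_nonempty hN
    refine ⟨h c0 k, hN.mono fun c hc => ?_⟩
    have h1 : (h c k).toNat = N := hc
    have h2 : (h c0 k).toNat = N := hc0
    have h3 : (h c k).toNat = (h c0 k).toNat := h1.trans h2.symm
    revert h3
    change _ → h c k = h c0 k
    cases h c k <;> cases h c0 k <;> simp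
  choose g hg using hbit
  refine ⟨g, ?_⟩
  -- the index of the first difference
  let Q : (ℕ → Bool) → ℕ → Prop := fun x n => x = g ∨ (x (n) ≠ g (n))
  classical
  have hQ : ∀ x, ∃ n, Q x n := by
    intro x
    by_cases hx : x = g
    · exact ⟨0, Or.inl hx⟩
    · obtain ⟨n, hn⟩ := Function.ne_iff.mp hx
      exact ⟨n, Or.inr hn⟩
  have hQm : ∀ n, MeasurableSet {x : ℕ → Bool | Q x n} := by
    intro n
    have h1 : MeasurableSet {x : ℕ → Bool | x = g} := measurableSet_eq
    have h2 : MeasurableSet {x : ℕ → Bool | x n ≠ g n} :=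
      (measurableSet_eq_fun (measurable_pi_apply n) measurable_const).compl
    exact h1.union h2
  have hfind : Measurable (fun x : ℕ → Bool => Nat.find (hQ x)) := measurable_find hQ hQm
  obtain ⟨N, hN⟩ := inv_lemma (hfind.comp hm) hθ h0 (hfull.mono fun c hc => by
    have : h c = h (c ∘ θ) := hc
    change Nat.find (hQ (h c)) = Nat.find (hQ (h (c ∘ θ)))
    have key : ∀ x y : ℕ → Bool, x = y → Nat.find (hQ x) = Nat.find (hQ y) := by
      rintro x y rfl; rfl
    exact key _ _ this)
  refine (hN.inter (hg N)).mono ?_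
  rintro c ⟨h1, h2⟩
  have h1' : Nat.find (hQ (h c)) = N := h1
  have h3 := Nat.find_spec (hQ (h c))
  rw [h1'] at h3
  rcases h3 with h3 | h3
  · exact h3
  · exact absurd h2 h3

lemma S1 {f : ℕ → XX → (ℕ → Bool)} (hf : Wit f) (r : ℕ) (u : XX) : ¬ Cst (Cc f r u) := by
  rintro ⟨N, hN⟩
  have hθ : StrictMono (emb r r x3) := (Gd_x3 r).strictMono
  have h0 : 1 ≤ emb r r x3 0 := by
    have : emb r r x3 0 = tm r (x3 r 0) 0 := emb_of_eq (by ring) (by omega)
    rw [this]
    unfold tm x3
    have : (r+1)*(r+1) = r*r + 2*r + 1 := by ring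
    omega
  have hfull : Full {c | f N (A1 r u c) = f N (A1 r u (c ∘ emb r r x3))} := by
    refine hN.mono fun c hc => ?_
    have h1 : Cc f r u c ≤ N := le_of_eq hc
    have h2 := (hf.le_iff (RR_Th r (A1 r u c)) N).mp h1
    rw [E3] at h2
    exact h2
  obtain ⟨g, hg⟩ := const_of_inv ((hf.meas N).comp (measurable_A1 r u)) hθ h0 hfull
  have he : StrictMono (fun n : ℕ => 2 * n) := fun a b h => by
    change 2 * a < 2 * b; omega
  have ho : StrictMono (fun n : ℕ => 2 * n + 1) := fun a b h => by
    change 2 * a + 1 < 2 * b + 1; omega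
  obtain ⟨c, ⟨hc1, hc2⟩, hc3⟩ :=
    full_nonempty (((full_comp he hg).inter (full_comp ho hg)).inter full_strictMono)
  have h1 : f N (A1 r u (c ∘ fun n => 2 * n)) = g := hc1
  have h2 : f N (A1 r u (c ∘ fun n => 2 * n + 1)) = g := hc2
  have hc3' : StrictMono c := hc3
  obtain ⟨m, n, R, hR⟩ := (hf.iff _ _).mpr ⟨N, h1.trans h2.symm⟩
  have h3 := hR (max r R) (le_max_right _ _) 0
  have hr : r ≤ max r R := le_max_left _ _
  unfold A1 law at h3
  rw [if_neg (by omega), if_neg (by omega)] at h3
  have h4 := hc3'.injective h3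
  beta_reduce at h4
  omega

lemma main_claim {f : ℕ → XX → (ℕ → Bool)} (hf : Wit f) (α : Ordinal.{0}) :
    ∀ r u, ¬ Le α (Cc f r u) := by
  induction α using WellFoundedLT.induction with
  | ind α ih =>
    intro r u hα
    rw [le_iff] at hα
    rcases hα with hα | ⟨k, hk⟩
    · exact S1 hf r u hα
    obtain ⟨v0, -, β0, hβ0, -⟩ := Al_exists hk
    obtain ⟨s, hs⟩ : ∃ s, s = r + k + 1 := ⟨_, rfl⟩
    obtain ⟨N3, hN3⟩ : ∃ N3, N3 = (8*s)*(8*s) - (8*r)*(8*r) := ⟨_, rfl⟩
    obtain ⟨N2, hN2⟩ : ∃ N2, N2 = (3*(r+k))*(3*(r+k)) - (3*r)*(3*r) := ⟨_, rfl⟩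
    have hsq8 : (8*r)*(8*r) ≤ (8*s)*(8*s) := Nat.mul_le_mul (by omega) (by omega)
    have hsq3 : (3*r)*(3*r) ≤ (3*(r+k))*(3*(r+k)) := Nat.mul_le_mul (by omega) (by omega)
    have hN3' : N3 + (8*r)*(8*r) = (8*s)*(8*s) := by omega
    have hN2' : N2 + (3*r)*(3*r) = (3*(r+k))*(3*(r+k)) := by omega
    -- bound for the basic law
    have hxk : ∀ x i, r ≤ x → x * x + i < k + r * r → x < r + k := by
      intro x i hx h
      by_contra h'
      push Not at h'
      have h1 : (r + k) * (r + k) ≤ x * x := Nat.mul_le_mul h' h'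
      have h2 : (r + k) * (r + k) = r * r + k * k + 2 * (r * k) := by ring
      have h3 : k ≤ k * k := Nat.le_mul_self k
      omega
    have hsqmono : ∀ a b : ℕ, a ≤ b → a * a ≤ b * b := fun a b h => Nat.mul_le_mul h h
    by_cases hW : Al N2 (fun v => Lt α (fun c => WW f r s u (cat v c)))
    · -- case 1
      have hbound : ∀ ξ : ℕ → ℕ → ℕ, Gd (3*r) (8*r) ξ →
          (∀ x i, x < 3 * (r + k) → ξ x i ≤ 8 * s - 1) →
          ∀ m, m < N2 → emb (3*r) (8*r) ξ m < N3 := by
        intro ξ hξ hb m hm
        refine emb_lt hξ ?_ hm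
        intro x i hx hi h
        have hx2 : x < 3 * (r + k) := by
          by_contra h'
          push Not at h'
          have := hsqmono _ _ h'
          omega
        have h1 := hb x i hx2
        have h2 : (ξ x i + 1) * (ξ x i + 1) ≤ (8*s)*(8*s) := hsqmono _ _ (by omega)
        have h3 : (ξ x i + 1) * (ξ x i + 1) = ξ x i * ξ x i + 2 * ξ x i + 1 := by ring
        have h4 := (hξ.1 x hx i).1
        omega
      have hTa := transfer (WW_meas hf r s u) (Gd_xa r s).strictMono
        (hbound _ (Gd_xa r s) (by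
          intro x i hx; unfold xa; split_ifs <;> omega)) hW
      have hTb := transfer (WW_meas hf r s u) (Gd_xb r s).strictMono
        (hbound _ (Gd_xb r s) (by
          intro x i hx; unfold xb; split_ifs <;> omega)) hW
      have hTc := transfer (WW_meas hf r s u) (Gd_xc r).strictMono
        (hbound _ (Gd_xc r) (by
          intro x i hx; unfold xc; split_ifs <;> omega)) hW
      have hTd := transfer (Cc_meas hf r u) (Gd_x5 r s).strictMono (k := k) (N := N3) (by
        intro m hm
        refine emb_lt (Gd_x5 r s) ?_ hm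
        intro x i hx hi h
        have h1 := hxk x i hx h
        have h2 : x5 s x i ≤ 8 * s - 1 := by unfold x5; split_ifs <;> omega
        have h3 : (x5 s x i + 1) * (x5 s x i + 1) ≤ (8*s)*(8*s) := hsqmono _ _ (by omega)
        have h4 : (x5 s x i + 1) * (x5 s x i + 1) =
          x5 s x i * x5 s x i + 2 * x5 s x i + 1 := by ring
        have h5 := ((Gd_x5 r s).1 x hx i).1
        omega) hk
      obtain ⟨v, hv, ha, hb, hc, hd⟩ := Al_exists (Al_and hTa (Al_and hTb (Al_and hTc hTd)))
      have hrs : r ≤ s := by omega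
      have hmax := Lt_max (Lt_max ha hb) (Lt_max hc hd)
      have hcomb : Lt α (fun c => ee f (bb r s u (cat v c)) (Th s (bb r s u (cat v c)))) := by
        refine Lt_of_le ?_ ?_ hmax
        · have hmb : Measurable (fun c => bb r s u (cat v c)) :=
            (measurable_bb r s u).comp (measurable_cat v)
          exact hf.ee_meas hmb ((measurable_Th s).comp hmb) fun _ => RR_Th _ _
        · refine full_univ.mono fun c _ => ?_
          change ee f (bb r s u (cat v c)) (Th s (bb r s u (cat v c))) ≤ _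
          generalize cat v c = d
          unfold WW Cc
          rw [← E6a hrs, ← E6b, ← E7a, ← E7b, ← E8a, ← E8b, ← E5]
          have r1 : RR (bb r s u d) (Th r (bb r s u d)) := RR_Th _ _
          have r2 : RR (Th r (bb r s u d)) (t2 r s u d) := by
            rw [E8a, E8b]; exact RR_BB _ _ _ _
          have r3 : RR (t1 r s u d) (t2 r s u d) := by
            rw [E7a, E7b]; exact RR_BB _ _ _ _
          have r4 : RR (Th s (bb r s u d)) (t1 r s u d) := by
            rw [E6a hrs, E6b]; exact RR_BB _ _ _ _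
          have i1 := hf.tri r1 r2
          have i2 := hf.tri (hf.trans r1 r2) (hf.symm r3)
          have i3 := hf.tri (hf.trans (hf.trans r1 r2) (hf.symm r3)) (hf.symm r4)
          rw [ee_symm f (t2 r s u d) (t1 r s u d)] at i2
          rw [ee_symm f (t1 r s u d) (Th s (bb r s u d))] at i3
          refine i3.trans (max_le (i2.trans (max_le (i1.trans (max_le ?_ ?_)) ?_)) ?_)
          · exact le_max_of_le_right (le_max_right _ _)
          · exact le_max_of_le_right (le_max_left _ _)
          · exact le_max_of_le_left (le_max_right _ _)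
          · exact le_max_of_le_left (le_max_left _ _)
      rw [hN3] at hv
      have heq : (fun c => ee f (bb r s u (cat v c)) (Th s (bb r s u (cat v c)))) =
          fun c => Cc f s (bb r s u (cat v fun _ => 0)) (c ∘ emb s (8*s) (x5 s)) := by
        funext c
        unfold Cc
        rw [← E9 hrs u hv c]
      rw [heq] at hcomb
      have hfin : Lt α (Cc f s (bb r s u (cat v fun _ => 0))) :=
        (Lt_ext (Cc_meas hf _ _) (Gd_x5 s s).strictMono).mpr hcomb
      obtain ⟨β, hβ, hβ'⟩ := hfin
      exact ih β hβ _ _ hβ'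
    · -- case 2
      have hW' := Al_not hW
      have hbound2 : ∀ ξ : ℕ → ℕ → ℕ, Gd r (3*r) ξ →
          (∀ x i, ξ x i ≤ 3 * x + 2) →
          ∀ m, m < k → emb r (3*r) ξ m < N2 := by
        intro ξ hξ hb m hm
        refine emb_lt hξ ?_ hm
        intro x i hx hi h
        have h1 := hxk x i hx h
        have h2 := hb x i
        have h3 : (ξ x i + 1) * (ξ x i + 1) ≤ (3*(r+k))*(3*(r+k)) := hsqmono _ _ (by omega)
        have h4 : (ξ x i + 1) * (ξ x i + 1) = ξ x i * ξ x i + 2 * ξ x i + 1 := by ring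
        have h5 := (hξ.1 x hx i).1
        omega
      have hT1 := transfer (Cc_meas hf r u) (Gd_x1 r s).strictMono
        (hbound2 _ (Gd_x1 r s) (by
          intro x i; unfold x1; split_ifs <;> omega)) hk
      have hT2 := transfer (Cc_meas hf r u) (Gd_x2 r s).strictMono
        (hbound2 _ (Gd_x2 r s) (by
          intro x i; unfold x2; split_ifs <;> omega)) hk
      have hM : Al N2 (fun v => Full {c | max (Cc f r u (cat v c ∘ emb r (3*r) (x1 s)))
          (Cc f r u (cat v c ∘ emb r (3*r) (x2 s))) < WW f r s u (cat v c)}) := by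
        refine Al_mono (fun v hv h => ?_) (Al_and hW' (Al_and hT1 hT2))
        obtain ⟨h1, h2, h3⟩ := h
        have hm1 : Measurable (fun c => WW f r s u (cat v c)) :=
          (WW_meas hf r s u).comp (measurable_cat v)
        have hm2 : Measurable (fun c => max (Cc f r u (cat v c ∘ emb r (3*r) (x1 s)))
          (Cc f r u (cat v c ∘ emb r (3*r) (x2 s)))) := by
          refine Measurable.max ?_ ?_
          · exact (Cc_meas hf r u).comp ((measurable_compr _).comp (measurable_cat v))
          · exact (Cc_meas hf r u).comp ((measurable_compr _).comp (measurable_cat v))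
        rcases decision (measurableSet_le hm1 hm2) with h4 | h4
        · exact absurd (Lt_of_le hm1 h4 (Lt_max h2 h3)) h1
        · refine h4.mono fun c hc => ?_
          have hc' : ¬ (WW f r s u (cat v c) ≤ max (Cc f r u (cat v c ∘ emb r (3*r) (x1 s)))
            (Cc f r u (cat v c ∘ emb r (3*r) (x2 s)))) := hc
          exact not_le.mp hc'
      have hM' : Full {c | max (Cc f r u (c ∘ emb r (3*r) (x1 s)))
          (Cc f r u (c ∘ emb r (3*r) (x2 s))) < WW f r s u c} := by
        rw [full_iff_Al N2]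
        exact hM
      have hθ : StrictMono (emb (3*r) (3*r) x4) := (Gd_x4 r).strictMono
      have h0 : 1 ≤ emb (3*r) (3*r) x4 0 := by
        have : emb (3*r) (3*r) x4 0 = tm (3*r) (x4 (3*r) 0) 0 := emb_of_eq (by ring) (by omega)
        rw [this]
        unfold tm x4
        have : (3*r+3)*(3*r+3) = (3*r)*(3*r) + 18*r + 9 := by ring
        omega
      have hinv : Full {c | WW f r s u c = WW f r s u (c ∘ emb (3*r) (3*r) x4)} := by
        refine hM'.mono fun c hc => ?_
        change max (Cc f r u (c ∘ emb r (3*r) (x1 s)))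
          (Cc f r u (c ∘ emb r (3*r) (x2 s))) < WW f r s u c at hc
        change WW f r s u c = WW f r s u (c ∘ emb (3*r) (3*r) x4)
        unfold Cc at hc
        unfold WW at hc ⊢
        rw [← E1, ← E2] at hc
        rw [← E4a, ← E4b]
        have r1 : RR (B1 r s u c) (B2 r s u c) := RR_BB _ _ _ _
        have r2 : RR (B1 r s u c) (Th r (B1 r s u c)) := RR_Th _ _
        have r3 : RR (B2 r s u c) (Th r (B2 r s u c)) := RR_Th _ _
        have r4 : RR (Th r (B1 r s u c)) (Th r (B2 r s u c)) := by
          rw [E4a, E4b]; exact RR_BB _ _ _ _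
        have i1 := hf.tri r2 r4
        have i2 := hf.tri (hf.trans r2 r4) (hf.symm r3)
        have i3 := hf.tri (hf.symm r2) r1
        have i4 := hf.tri (hf.trans (hf.symm r2) r1) r3
        rw [ee_symm f (Th r (B2 r s u c)) (B2 r s u c)] at i2
        rw [ee_symm f (Th r (B1 r s u c)) (B1 r s u c)] at i3
        omega
      obtain ⟨v, hv, h1, h2⟩ := Al_exists (Al_and hW' ((inv_lemma (WW_meas hf r s u) hθ h0 hinv).Al N2))
      exact h1 ⟨β0, hβ0, h2.Le β0⟩

lemma no_wit (f : ℕ → XX → (ℕ → Bool)) : ¬ Wit f := by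
  intro hf
  obtain ⟨α, hα⟩ := Le_total (Cc_meas hf 0 (fun _ _ => 0))
  exact main_claim hf α _ _ hα

end Pool.Agent.Lib.MP7df21e
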